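import Pool.Agent.Helper77.DS.Kos

/-! DS-11a: Koszul homotopy with alternating functions -/

namespace Pool.Agent.Helper77.DS

open MvPolynomial

noncomputable section

private theorem cons_ne {Ω : Type} {n : ℕ} (s : Fin n → Ω) (a b : Ω) (x : Fin (n + 1))
    (hx : x ≠ 0) : (Fin.cons a s : Fin (n + 1) → Ω) x = (Fin.cons b s : Fin (n + 1) → Ω) x := by
  obtain ⟨y, rfl⟩ := Fin.exists_succ_eq.2 hx
  simp

private theorem sign_sq {R : Type} [CommRing R] {n : ℕ} (σ : Equiv.Perm (Fin n)) :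
    ((Equiv.Perm.sign σ : ℤ) : R) * ((Equiv.Perm.sign σ : ℤ) : R) = 1 := by
  rcases Int.units_eq_one_or (Equiv.Perm.sign σ) with h | h <;> simp [h]

private theorem other {Ω : Type} [Fintype Ω] (J : Ideal (MvPolynomial Ω ℂ)) (p : ℕ)
    (z : Ω → (Fin (p + 1) → Ω) → MvPolynomial Ω ℂ) (hz : ∀ α, z α ∈ Cyc J p)
    (s : Fin (p + 1) → Ω) (σ : Equiv.Perm (Fin (p + 2))) (hσ : σ 0 ≠ 0) :
    ∑ α, X α * z ((Fin.cons α s : Fin (p + 2) → Ω) (σ 0))
      (fun k => (Fin.cons α s : Fin (p + 2) → Ω) (σ k.succ)) ∈ J := by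
  have h0 : σ.symm 0 ≠ 0 := by
    intro h
    apply hσ
    rw [← h, Equiv.apply_symm_apply]
    exact h.symm
  obtain ⟨k₀, hk₀⟩ := Fin.exists_succ_eq.2 h0
  have hk : σ k₀.succ = 0 := by rw [hk₀, Equiv.apply_symm_apply]
  set β : Ω := (Fin.cons (s 0) s : Fin (p + 2) → Ω) (σ 0) with hβ
  set π : Equiv.Perm (Fin (p + 1)) := Equiv.swap 0 k₀ with hπ
  set v : Fin p → Ω := fun k => (Fin.cons (s 0) s : Fin (p + 2) → Ω) (σ (π k.succ).succ) with hv
  have hπ0 : π 0 = k₀ := Equiv.swap_apply_left _ _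
  have hne : ∀ k : Fin p, σ (π k.succ).succ ≠ 0 := by
    intro k h
    have h1 : (π k.succ).succ = k₀.succ := σ.injective (h.trans hk.symm)
    have h2 : π k.succ = π 0 := (Fin.succ_injective _ h1).trans hπ0.symm
    exact Fin.succ_ne_zero k (π.injective h2)
  have hw : ∀ α, (fun k => (Fin.cons α s : Fin (p + 2) → Ω) (σ (π k).succ)) =
      (Fin.cons α v : Fin (p + 1) → Ω) := by
    intro α
    funext k
    refine Fin.cases ?_ (fun k => ?_) k
    · rw [hπ0, hk]
      simp
    · rw [Fin.cons_succ]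
      exact cons_ne s α (s 0) _ (hne k)
  have key : ∀ α, z ((Fin.cons α s : Fin (p + 2) → Ω) (σ 0))
      (fun k => (Fin.cons α s : Fin (p + 2) → Ω) (σ k.succ)) -
      ((Equiv.Perm.sign π : ℤ) : MvPolynomial Ω ℂ) * z β (Fin.cons α v) ∈ J := by
    intro α
    have e0 : (Fin.cons α s : Fin (p + 2) → Ω) (σ 0) = β := cons_ne s α (s 0) _ hσ
    rw [e0]
    have h1 := (hz β).1 π (fun k => (Fin.cons α s : Fin (p + 2) → Ω) (σ k.succ))
    have h2 := J.mul_mem_left (-((Equiv.Perm.sign π : ℤ) : MvPolynomial Ω ℂ)) h1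
    have e1 : z β (fun i => (fun k => (Fin.cons α s : Fin (p + 2) → Ω) (σ k.succ)) (π i)) =
        z β (Fin.cons α v) := congrArg (z β) (hw α)
    rw [e1] at h2
    convert h2 using 1
    have := sign_sq (R := MvPolynomial Ω ℂ) π
    linear_combination (-(z β fun k => (Fin.cons α s : Fin (p + 2) → Ω) (σ k.succ))) * this
  have h3 : ∑ α, X α * (z ((Fin.cons α s : Fin (p + 2) → Ω) (σ 0))
      (fun k => (Fin.cons α s : Fin (p + 2) → Ω) (σ k.succ)) -
      ((Equiv.Perm.sign π : ℤ) : MvPolynomial Ω ℂ) * z β (Fin.cons α v)) ∈ J :=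
    Submodule.sum_mem _ fun α _ => J.mul_mem_left _ (key α)
  have h4 : ((Equiv.Perm.sign π : ℤ) : MvPolynomial Ω ℂ) * bd (z β) v ∈ J :=
    J.mul_mem_left _ ((hz β).2 v)
  have h5 := J.add_mem h3 h4
  convert h5 using 1
  unfold bd
  rw [finsum_eq_sum_of_fintype, Finset.mul_sum, ← Finset.sum_add_distrib]
  refine Finset.sum_congr rfl fun α _ => ?_
  ring

private theorem main_term {Ω : Type} [Fintype Ω] (J : Ideal (MvPolynomial Ω ℂ)) (p : ℕ)
    (z : Ω → (Fin (p + 1) → Ω) → MvPolynomial Ω ℂ) (hz : ∀ α, z α ∈ Cyc J p)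
    (s : Fin (p + 1) → Ω) (τ : Equiv.Perm (Fin (p + 1))) :
    ∑ α, X α * (((Equiv.Perm.sign τ : ℤ) : MvPolynomial Ω ℂ) * z α (fun k => s (τ k))) -
      ∑ α, X α * z α s ∈ J := by
  rw [← Finset.sum_sub_distrib]
  refine Submodule.sum_mem _ fun α _ => ?_
  have h1 := (hz α).1 τ s
  have h2 := J.mul_mem_left (X α * ((Equiv.Perm.sign τ : ℤ) : MvPolynomial Ω ℂ)) h1
  convert h2 using 1
  have := sign_sq (R := MvPolynomial Ω ℂ) τ
  linear_combination (X α * z α s) * this

/-- DS-11a -/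
theorem kos_exact_of_cyc {Ω : Type} [Finite Ω] (J : Ideal (MvPolynomial Ω ℂ)) (p q : ℕ)
    (h : ∀ c ∈ Cyc J p, (∀ s, (c s).IsHomogeneous q) →
      ∃ z : Ω → (Fin (p + 1) → Ω) → MvPolynomial Ω ℂ, (∀ α, z α ∈ Cyc J p) ∧
        ∀ s, c s - ∑ᶠ α, X α * z α s ∈ J) : KosExact J p q := by
  classical
  have := Fintype.ofFinite Ω
  intro c hc hq hb
  obtain ⟨z, hz, hcz⟩ := h c ⟨fun σ s => by rw [hc σ s, sub_self]; exact J.zero_mem, hb⟩ hq
  set N : ℂ := ((p + 1).factorial : ℂ)⁻¹ with hN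
  let g : (Fin (p + 2) → Ω) → Equiv.Perm (Fin (p + 2)) → MvPolynomial Ω ℂ := fun s σ =>
    ((Equiv.Perm.sign σ : ℤ) : MvPolynomial Ω ℂ) * z (s (σ 0)) (fun i => s (σ i.succ))
  refine ⟨fun s => C N * ∑ σ, g s σ, ?_, ?_⟩
  · intro τ s
    have h1 : ∑ σ, g (fun i => s (τ i)) σ =
        ((Equiv.Perm.sign τ : ℤ) : MvPolynomial Ω ℂ) * ∑ σ, g s σ := by
      rw [← Equiv.sum_comp (Equiv.mulLeft τ) (g s), Finset.mul_sum]
      refine Finset.sum_congr rfl fun σ _ => ?_
      have := sign_sq (R := MvPolynomial Ω ℂ) τ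
      simp only [g, Equiv.coe_mulLeft, Equiv.Perm.mul_apply, map_mul, Units.val_mul, Int.cast_mul]
      linear_combination (-(((Equiv.Perm.sign σ : ℤ) : MvPolynomial Ω ℂ) *
        z (s (τ (σ 0))) fun i => s (τ (σ i.succ)))) * this
    simp only [h1]
    ring
  · intro s
    have hs : ∀ (i : Fin (p + 2)) (τ : Equiv.Perm (Fin (p + 1))),
        ∑ α, X α * g (Fin.cons α s) (Equiv.Perm.decomposeFin.symm (i, τ)) -
          (if i = 0 then ∑ α, X α * z α s else 0) ∈ J := by
      intro i τ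
      by_cases hi : i = 0
      · subst hi
        rw [if_pos rfl]
        have := main_term J p z hz s τ
        convert this using 3 with α
        simp only [g]
        rw [Equiv.Perm.decomposeFin.symm_sign, Equiv.Perm.decomposeFin_symm_apply_zero]
        simp
      · rw [if_neg hi, sub_zero]
        have hσ : Equiv.Perm.decomposeFin.symm (i, τ) 0 ≠ 0 := by
          rw [Equiv.Perm.decomposeFin_symm_apply_zero]
          exact hi
        have := J.mul_mem_left
          ((Equiv.Perm.sign (Equiv.Perm.decomposeFin.symm (i, τ)) : ℤ) : MvPolynomial Ω ℂ)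
          (other J p z hz s _ hσ)
        convert this using 1
        rw [Finset.mul_sum]
        refine Finset.sum_congr rfl fun α _ => ?_
        simp only [g]
        ring
    have h1 : ∑ x : Fin (p + 2) × Equiv.Perm (Fin (p + 1)),
        (∑ α, X α * g (Fin.cons α s) (Equiv.Perm.decomposeFin.symm x) -
          (if x.1 = 0 then ∑ α, X α * z α s else 0)) ∈ J :=
      Submodule.sum_mem _ fun x _ => hs x.1 x.2
    rw [Finset.sum_sub_distrib] at h1
    have h2 : ∑ x : Fin (p + 2) × Equiv.Perm (Fin (p + 1)),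
        (if x.1 = 0 then ∑ α, X α * z α s else 0) =
          C ((p + 1).factorial : ℂ) * ∑ α, X α * z α s := by
      rw [Fintype.sum_prod_type, Finset.sum_eq_single_of_mem 0 (Finset.mem_univ _) (by
        intro i _ hi
        simp only [hi, if_false, Finset.sum_const_zero])]
      simp only [if_true]
      rw [Finset.sum_const, Finset.card_univ, Fintype.card_perm, Fintype.card_fin, nsmul_eq_mul]
      simp
    rw [h2, Finset.sum_comm] at h1
    have h3 := J.mul_mem_left (C N) h1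
    have h4 := hcz s
    rw [finsum_eq_sum_of_fintype] at h4
    have h5 := J.sub_mem h4 h3
    convert h5 using 1
    unfold bd
    rw [finsum_eq_sum_of_fintype]
    have h6 : ∀ α, ∑ x : Fin (p + 2) × Equiv.Perm (Fin (p + 1)),
        X α * g (Fin.cons α s) (Equiv.Perm.decomposeFin.symm x) =
          X α * ∑ σ, g (Fin.cons α s) σ := by
      intro α
      rw [← Finset.mul_sum, Equiv.sum_comp Equiv.Perm.decomposeFin.symm (g (Fin.cons α s))]
    simp only [h6]
    have h7 : (C N : MvPolynomial Ω ℂ) * C ((p + 1).factorial : ℂ) = 1 := by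
      rw [← C_mul, hN, inv_mul_cancel₀ (by exact_mod_cast (Nat.factorial_ne_zero _)), C_1]
    have h8 : ∑ α, X α * (C N * ∑ σ, g (Fin.cons α s) σ) =
        C N * ∑ α, X α * ∑ σ, g (Fin.cons α s) σ := by
      rw [Finset.mul_sum]
      exact Finset.sum_congr rfl fun α _ => by ring
    rw [h8]
    linear_combination (-(∑ α, X α * z α s)) * h7

end

end Pool.Agent.Helper77.DS
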